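import Pool.Agent.Helper46.C2.St

set_option autoImplicit false

namespace Pool.Agent.Helper29.C2

open Pool.Agent.Helper43.GD Pool.Agent.Helper46.C2

theorem hTX : Pool.Agent.Helper46.C2.StTX := by
  intro n hn
  obtain ⟨x, hx⟩ := IsCyclic.exists_generator (α := (GaloisField 2 n)ˣ)
  have h2 : (2 : GaloisField 2 n) = 0 := by
    have := CharP.cast_eq_zero (GaloisField 2 n) 2
    exact_mod_cast this
  have hcard : Nat.card (GaloisField 2 n) = 2 ^ n := GaloisField.card 2 n (by omega)
  haveI : Finite (GaloisField 2 n) := Nat.finite_of_card_ne_zero (by rw [hcard]; positivity)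
  haveI : Fintype (GaloisField 2 n) := Fintype.ofFinite _
  have h4 : 4 ≤ Nat.card (GaloisField 2 n) := by
    rw [hcard]
    calc 4 = 2 ^ 2 := by norm_num
      _ ≤ 2 ^ n := Nat.pow_le_pow_right (by norm_num) hn
  have hcu : Nat.card (GaloisField 2 n)ˣ + 1 = Nat.card (GaloisField 2 n) := by
    have := Nat.card_units (GaloisField 2 n)
    omega
  have hx1 : x ≠ 1 := by
    intro h
    have hall : ∀ y : (GaloisField 2 n)ˣ, y = 1 := by
      intro y
      have hy := hx y
      rw [h, Subgroup.mem_zpowers_iff] at hy
      obtain ⟨j, hj⟩ := hy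
      rw [← hj, one_zpow]
    have : Nat.card (GaloisField 2 n)ˣ ≤ 1 := by
      haveI : Subsingleton (GaloisField 2 n)ˣ := ⟨fun a b => by rw [hall a, hall b]⟩
      exact Finite.card_le_one_iff_subsingleton.2 this
    omega
  have hxv : (x : GaloisField 2 n) + 1 ≠ 0 := by
    intro h
    apply hx1
    apply Units.ext
    have : (x : GaloisField 2 n) = -1 := eq_neg_of_add_eq_zero_left h
    rw [this, Units.val_one]
    have : (1 : GaloisField 2 n) + 1 = 0 := by rw [one_add_one_eq_two, h2]
    exact (eq_neg_of_add_eq_zero_left this).symm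
  have hall : ∀ y : GaloisField 2 n, y ≠ 0 → ∃ k : ℕ, (x : GaloisField 2 n) ^ k = y := by
    intro y hy
    have h := hx (Units.mk0 y hy)
    rw [← mem_powers_iff_mem_zpowers, Submonoid.mem_powers_iff] at h
    obtain ⟨k, hk⟩ := h
    refine ⟨k, ?_⟩
    have := congrArg (fun u : (GaloisField 2 n)ˣ => (u : GaloisField 2 n)) hk
    simpa using this
  obtain ⟨k, hk⟩ := hall _ hxv
  refine ⟨k, x, ?_, hk, ?_⟩
  · rcases Nat.lt_or_ge k 2 with hk2 | hk2
    · exfalso
      interval_cases k
      · rw [pow_zero] at hk
        have : (x : GaloisField 2 n) = 0 := by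
          have := hk.symm
          simpa using this
        exact x.ne_zero this
      · rw [pow_one] at hk
        have : (1 : GaloisField 2 n) = 0 := by
          have := hk.symm
          simpa using this
        exact one_ne_zero this
    · exact hk2
  · intro N h1 hN y
    by_cases hy : y = 0
    · rw [hy]; exact N.zero_mem
    · obtain ⟨j, hj⟩ := hall y hy
      rw [← hj]
      clear hj
      induction j with
      | zero => rw [pow_zero]; exact h1
      | succ j ih => rw [pow_succ']; exact hN _ ih

end Pool.Agent.Helper29.C2
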